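import Pool.Agent.Helper12.AD.Stmts

/-!
# WCV, WCC: concavity of the profile of the disk
-/

set_option autoImplicit false

namespace AD

theorem st_WCV : ST_WCV := by
  intro r hr
  refine ⟨convex_Icc _ _, ?_⟩
  intro s hs t ht a b ha hb hab
  obtain ⟨hs1, hs2⟩ := hs
  obtain ⟨ht1, ht2⟩ := ht
  have h1 : (0 : ℝ) ≤ r ^ 2 - s ^ 2 := by nlinarith
  have h2 : (0 : ℝ) ≤ r ^ 2 - t ^ 2 := by nlinarith
  have hws := Real.sq_sqrt h1
  have hwt := Real.sq_sqrt h2
  have hws0 := Real.sqrt_nonneg (r ^ 2 - s ^ 2)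
  have hwt0 := Real.sqrt_nonneg (r ^ 2 - t ^ 2)
  simp only [smul_eq_mul, w]
  set x := Real.sqrt (r ^ 2 - s ^ 2) with hx
  set y := Real.sqrt (r ^ 2 - t ^ 2) with hy
  have hst : s * t ≤ r ^ 2 := by
    nlinarith [sq_nonneg (s - t), sq_nonneg (s + t)]
  have hxy : x * y ≤ r ^ 2 - s * t := by
    refine abs_le_of_sq_le_sq' ?_ (by linarith) |>.2
    have : (x * y) ^ 2 = (r ^ 2 - s ^ 2) * (r ^ 2 - t ^ 2) := by
      rw [mul_pow, hws, hwt]
    rw [this]
    nlinarith [mul_nonneg (sq_nonneg r) (sq_nonneg (s - t))]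
  refine Real.le_sqrt_of_sq_le ?_
  have hb' : b = 1 - a := by linarith
  have hab0 : 0 ≤ a * b := mul_nonneg ha hb
  have e1 : (a * x + b * y) ^ 2 = a ^ 2 * (r ^ 2 - s ^ 2) + b ^ 2 * (r ^ 2 - t ^ 2) +
      2 * (a * b) * (x * y) := by
    rw [← hws, ← hwt]
    ring
  have e2 : r ^ 2 - (a * s + b * t) ^ 2 = a ^ 2 * (r ^ 2 - s ^ 2) + b ^ 2 * (r ^ 2 - t ^ 2) +
      2 * (a * b) * (r ^ 2 - s * t) := by
    rw [hb']
    ring
  rw [e1, e2]
  have := mul_le_mul_of_nonneg_left hxy hab0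
  linarith

theorem st_WCC (hW : ST_WCV) : ST_WCC := by
  intro r a b c d hr hc hd hca hcb hab
  have hcd : c ≤ d := by linarith
  rcases hcd.eq_or_lt with rfl | hcd
  · have h1 : a = c := by linarith
    have h2 : b = c := by linarith
    rw [h1, h2]
  · have hc' : c ∈ Set.Icc (-r) r := ⟨hc, by linarith⟩
    have hd' : d ∈ Set.Icc (-r) r := ⟨by linarith, hd⟩
    have hpos : 0 < d - c := by linarith
    have hl0 : 0 ≤ (d - a) / (d - c) := div_nonneg (by linarith) hpos.le
    have hl1 : 0 ≤ (a - c) / (d - c) := div_nonneg (by linarith) hpos.le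
    have hl : (d - a) / (d - c) + (a - c) / (d - c) = 1 := by
      rw [← add_div, div_eq_one_iff_eq hpos.ne']
      ring
    have k1 := (hW r hr).2 hc' hd' hl0 hl1 hl
    have k2 := (hW r hr).2 hc' hd' hl1 hl0 (by rw [add_comm]; exact hl)
    simp only [smul_eq_mul] at k1 k2
    have ea : (d - a) / (d - c) * c + (a - c) / (d - c) * d = a := by
      field_simp
      ring
    have eb : (a - c) / (d - c) * c + (d - a) / (d - c) * d = b := by
      have : b = c + d - a := by linarith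
      rw [this]
      field_simp
      ring
    rw [ea] at k1
    rw [eb] at k2
    have e3 : (d - a) / (d - c) * w r c + (a - c) / (d - c) * w r c = w r c := by
      rw [← add_mul, hl, one_mul]
    have e4 : (d - a) / (d - c) * w r d + (a - c) / (d - c) * w r d = w r d := by
      rw [← add_mul, hl, one_mul]
    linarith

end AD
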